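import Pool.Agent.Q54.EM.StmN

set_option autoImplicit false

namespace Pool.Agent.Q225.EM

open Finset Pool.Agent.Q54.EM

lemma hs_log {q : ℝ} (h0 : 0 < q) (h1 : q < 1) :
    HasSum (fun n : ℕ => q ^ (n + 1) / (n + 1)) (q * ff q) := by
  have h := Real.hasSum_pow_div_log_of_abs_lt_one (x := q) (by rw [abs_of_pos h0]; exact h1)
  have h2 : q * ff q = -Real.log (1 - q) := by
    unfold ff
    field_simp
  rw [h2]
  exact h

lemma hs_ff {q : ℝ} (h0 : 0 < q) (h1 : q < 1) :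
    HasSum (fun n : ℕ => q ^ n / (n + 1)) (ff q) := by
  have h := (hs_log h0 h1).mul_left q⁻¹
  have h2 : q⁻¹ * (q * ff q) = ff q := by
    rw [← mul_assoc, inv_mul_cancel₀ h0.ne', one_mul]
  rw [h2] at h
  refine h.congr_fun ?_
  intro n
  rw [pow_succ]
  field_simp

lemma hs_phi (c : ℝ) {q : ℝ} (h0 : 0 < q) (h1 : q < 1) :
    HasSum (fun n : ℕ => q ^ (n + 1) * (1 / ((n : ℝ) + 2) - c / (n + 1))) ((1 - c * q) * ff q - 1) := by
  have h2 : HasSum (fun n : ℕ => q ^ (n + 1) / (((n + 1 : ℕ) : ℝ) + 1))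
      (ff q - ∑ i ∈ range 1, q ^ i / ((i : ℝ) + 1)) :=
    (hasSum_nat_add_iff' (f := fun n : ℕ => q ^ n / ((n : ℝ) + 1)) 1).2 (hs_ff h0 h1)
  have h3 := h2.sub ((hs_log h0 h1).mul_left c)
  have h4 : ff q - ∑ i ∈ range 1, q ^ i / ((i : ℝ) + 1) - c * (q * ff q) = (1 - c * q) * ff q - 1 := by
    simp
    ring
  rw [h4] at h3
  refine h3.congr_fun ?_
  intro n
  push_cast
  field_simp
  ring

theorem ser : S_SER := by
  intro q t c hq0 hq7 ht0 ht1 hc1 hc2
  have hq1 : q < 1 := by linarith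
  have ha : ∀ n : ℕ, 0 ≤ 1 / ((n : ℝ) + 2) - c / (n + 1) := by
    intro n
    have hn : (0 : ℝ) ≤ n := Nat.cast_nonneg n
    rw [sub_nonneg, div_le_div_iff₀ (by positivity) (by positivity)]
    nlinarith
  have hlow : ∀ x : ℝ, 0 < x → x < 1 → 1 + (1 / 2 - c) * x + (1 / 3 - c / 2) * x ^ 2 +
      (1 / 4 - c / 3) * x ^ 3 + (1 / 5 - c / 4) * x ^ 4 ≤ (1 - c * x) * ff x := by
    intro x hx0 hx1
    have h := sum_le_hasSum (range 4) (fun n _ => mul_nonneg (pow_nonneg hx0.le _) (ha n))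
      (hs_phi c hx0 hx1)
    simp only [sum_range_succ, range_zero, sum_empty, Nat.cast_zero, Nat.cast_one, Nat.cast_ofNat] at h
    norm_num at h
    nlinarith [h]
  have hlowf : 1 + q / 2 + q ^ 2 / 3 + q ^ 3 / 4 + q ^ 4 / 5 + q ^ 5 / 6 ≤ ff q := by
    have h := sum_le_hasSum (range 6) (fun n _ => by positivity) (hs_ff hq0 hq1)
    simp only [sum_range_succ, range_zero, sum_empty, Nat.cast_zero, Nat.cast_one, Nat.cast_ofNat] at h
    norm_num at h
    linarith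
  have hgeo : HasSum (fun n : ℕ => q ^ (n + 5) / 6) (q ^ 5 / (6 * (1 - q))) := by
    have h := (hasSum_geometric_of_lt_one hq0.le hq1).mul_left (q ^ 5 / 6)
    have h2 : q ^ 5 / 6 * (1 - q)⁻¹ = q ^ 5 / (6 * (1 - q)) := by
      have : (1 - q) ≠ 0 := by linarith
      field_simp
    rw [h2] at h
    refine h.congr_fun ?_
    intro n
    rw [pow_add]
    ring
  have hup : ff q ≤ 1 + q / 2 + q ^ 2 / 3 + q ^ 3 / 4 + q ^ 4 / 5 + q ^ 5 / (6 * (1 - q)) := by
    have h2 : HasSum (fun n : ℕ => q ^ (n + 5) / (((n + 5 : ℕ) : ℝ) + 1))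
        (ff q - ∑ i ∈ range 5, q ^ i / ((i : ℝ) + 1)) :=
      (hasSum_nat_add_iff' (f := fun n : ℕ => q ^ n / ((n : ℝ) + 1)) 5).2 (hs_ff hq0 hq1)
    have h3 := hasSum_le (fun n => by
      apply div_le_div_of_nonneg_left (by positivity) (by norm_num)
      push_cast
      have : (0 : ℝ) ≤ n := Nat.cast_nonneg n
      linarith) h2 hgeo
    simp only [sum_range_succ, range_zero, sum_empty, Nat.cast_zero, Nat.cast_one, Nat.cast_ofNat] at h3
    norm_num at h3
    linarith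
  have hupphi : (1 - c * q) * ff q ≤ 1 + (1 / 2 - c) * q + (1 / 3 - c / 2) * q ^ 2 +
      (1 / 4 - c / 3) * q ^ 3 + (1 / 5 - c / 4) * q ^ 4 + q ^ 5 / (6 * (1 - q)) := by
    have h2 := (hasSum_nat_add_iff' (f := fun n : ℕ => q ^ (n + 1) * (1 / ((n : ℝ) + 2) - c / (n + 1)))
      4).2 (hs_phi c hq0 hq1)
    have h3 := hasSum_le (fun n => by
      have hn : (0 : ℝ) ≤ n := Nat.cast_nonneg n
      have h5 : q ^ (n + 5) / 6 = q ^ (n + 4 + 1) * (1 / 6) := by ring
      rw [h5]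
      apply mul_le_mul_of_nonneg_left _ (by positivity)
      have h6 : 0 ≤ c / (((n + 4 : ℕ) : ℝ) + 1) := by positivity
      have h7 : 1 / (((n + 4 : ℕ) : ℝ) + 2) ≤ 1 / 6 := by
        apply one_div_le_one_div_of_le (by norm_num)
        push_cast
        linarith
      linarith) h2 hgeo
    simp only [sum_range_succ, range_zero, sum_empty, Nat.cast_zero, Nat.cast_one, Nat.cast_ofNat] at h3
    norm_num at h3
    nlinarith [h3]
  refine ⟨hlowf, hup, ?_, ?_⟩
  · intro e he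
    have hx0 : 0 < q * (1 - t) := mul_pos hq0 (by linarith)
    have hx1 : q * (1 - t) < 1 := by nlinarith
    have h1 := hlow _ hx0 hx1
    have h2 : 1 + q / 2 ≤ ff q := by
      have : 0 ≤ q ^ 2 / 3 + q ^ 3 / 4 + q ^ 4 / 5 + q ^ 5 / 6 := by positivity
      linarith
    have h3 : c * e * q * (1 + q / 2) ≤ c * e * q * ff q :=
      mul_le_mul_of_nonneg_left h2 (by positivity)
    unfold Dp
    have h4 : (1 - c * q * (1 + e)) * ff q = (1 - c * q) * ff q - c * e * q * ff q := by ring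
    rw [h4]
    have h5 : (q * (1 - t)) ^ 2 = q ^ 2 * (1 - t) ^ 2 := by ring
    have h6 : (q * (1 - t)) ^ 3 = q ^ 3 * (1 - t) ^ 3 := by ring
    have h7 : (q * (1 - t)) ^ 4 = q ^ 4 * (1 - t) ^ 4 := by ring
    rw [h5, h6, h7] at h1
    linarith
  · intro x hx0 hxq
    have hx1 : x < 1 := by linarith
    have h := hasSum_le (fun n => mul_le_mul_of_nonneg_right (pow_le_pow_left₀ hx0.le hxq (n + 1))
      (ha n)) (hs_phi c hx0 hx1) (hs_phi c hq0 hq1)
    linarith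

end Pool.Agent.Q225.EM
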